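import Pool.Agent.Q39.CT.Tree

/-!
# MP_d70946_co: a graph with rank-width at least 3 and split-free cable term width at most 4

The graph has 11 vertices: the `2 × 5` grid with the rows `0, 2, 4, 6, 8` and `1, 3, 5, 7, 9` (the
rungs are `{0,1}, {2,3}, …, {8,9}`) and one more vertex `10`, which is joined to `0` and `8`.

The definitions of the cutrank, the rank-width `rw`, the split-free cable terms and their width
`sfw` are in `Pool.Agent.Q39.CT.Defs`.
-/

set_option autoImplicit false

namespace Pool.Agent.Results.MP_d70946_co.RankWidthThree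

open Pool.Agent.Q39.CT

/-- The neighbourhoods of the vertices, as bit masks. -/
def am : List ℕ := [1030, 9, 25, 38, 100, 152, 400, 608, 1600, 384, 257]

/-- Adjacency. -/
def adjB (i j : ℕ) : Bool := (am.getD i 0).testBit j

theorem adjB_symm : ∀ i j : Fin 11, adjB i j = adjB j i := by decide +kernel

theorem adjB_irrefl : ∀ i : Fin 11, adjB i i = false := by decide +kernel

/-- The graph. -/
def G : SimpleGraph (Fin 11) where
  Adj i j := adjB i j = true
  symm := ⟨fun i j h => by rw [← adjB_symm]; exact h⟩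
  loopless := ⟨fun i h => by rw [adjB_irrefl] at h; exact absurd h (by simp)⟩

instance : DecidableRel G.Adj := fun i j => inferInstanceAs (Decidable (adjB i j = true))

/-- The edges of the graph: the `2 × 5` grid and the two edges at the vertex `10`. -/
theorem G_edges : ∀ i j : Fin 11, G.Adj i j ↔
    (i, j) ∈ ([(0,1), (2,3), (4,5), (6,7), (8,9), (0,2), (2,4), (4,6), (6,8), (1,3), (3,5), (5,7),
      (7,9), (0,10), (8,10)] : List (Fin 11 × Fin 11)) ∨
    (j, i) ∈ ([(0,1), (2,3), (4,5), (6,7), (8,9), (0,2), (2,4), (4,6), (6,8), (1,3), (3,5), (5,7),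
      (7,9), (0,10), (8,10)] : List (Fin 11 × Fin 11)) := by
  decide +kernel

/-! ### The term -/

open Term

/-- Replace a cable by a new vertex which is joined to it. -/
def P (z : Fin 11) : Term (Fin 11) 1 1 :=
  comp (comp (box e (nu {z})) B) (box kappa e)

/-- One step along the ladder. -/
def stp (z w : Fin 11) : Term (Fin 11) 2 2 := comp (box (P z) (P w)) B

/-- The ladder, from its first upper vertex `0` to its last upper vertex `8`. -/
def lad : Term (Fin 11) 1 1 :=
  comp (box e (nu {1})) (comp B (comp (stp 2 3) (comp (stp 4 5) (comp (stp 6 7) (comp (stp 8 9)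
    (box e kappa))))))

/-- The closed term for `G`. -/
def trm : Term (Fin 11) 0 0 :=
  comp (nu {10}) (comp (box (nu {0}) e) (comp B (comp (box lad e) (comp B (box kappa kappa)))))

theorem legal : Legal G trm := by
  refine ⟨?_, by decide +kernel, by decide +kernel⟩
  simp [trm, lad, stp, P, Nonempties]

theorem width_trm : trm.width = 4 := by decide +kernel

theorem sfw_le : sfw G ≤ 4 := by
  refine (iInf₂_le trm legal).trans ?_
  rw [width_trm]
  exact le_rfl

/-! ### The cuts -/

/-- The number of the bits. -/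
def cnt (b : ℕ) : ℕ :=
  (b.testBit 0).toNat + (b.testBit 1).toNat + (b.testBit 2).toNat + (b.testBit 3).toNat +
  (b.testBit 4).toNat + (b.testBit 5).toNat + (b.testBit 6).toNat + (b.testBit 7).toNat +
  (b.testBit 8).toNat + (b.testBit 9).toNat + (b.testBit 10).toNat

/-- Three independent rows. -/
def indep (u v w : ℕ) : Bool :=
  (u != 0) && (v != 0) && (w != 0) && (u != v) && (u != w) && (v != w) && ((u ^^^ v) != w)

/-- `b` has at most three or at least eight elements, or there are three vertices in `b` whose rows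
outside `b` are independent. -/
def chk (b : ℕ) : Bool :=
  (cnt b ≤ 3) || (8 ≤ cnt b) ||
  (List.range 11).any fun i => b.testBit i &&
    (List.range i).any fun j => b.testBit j &&
      (List.range j).any fun k => b.testBit k &&
        indep ((am.getD i 0) &&& (2047 ^^^ b)) ((am.getD j 0) &&& (2047 ^^^ b))
          ((am.getD k 0) &&& (2047 ^^^ b))

theorem chk_all : (List.range 2048).all chk = true := by decide +kernel

theorem ex_bit {u v : ℕ} (h : u ≠ v) : ∃ j, u.testBit j ≠ v.testBit j := by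
  by_contra hcon
  push Not at hcon
  exact h (Nat.eq_of_testBit_eq hcon)

theorem am_lt : ∀ i : Fin 11, am.getD i 0 < 2048 := by decide +kernel

/-- The set of a mask. -/
theorem exists_mask (X : Set (Fin 11)) [DecidablePred (· ∈ X)] :
    ∃ b < 2048, ∀ i : Fin 11, b.testBit i = decide (i ∈ X) := by
  refine ⟨Nat.ofBits fun i : Fin 11 => decide (i ∈ X), Nat.ofBits_lt_two_pow _, ?_⟩
  intro i
  rw [Nat.testBit_ofBits_lt _ _ i.2]

theorem rank_ge_three {m n : Type} [Fintype m] [Fintype n] (M : Matrix m n (ZMod 2)) (i j k : m)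
    (h : ∀ a b c : ZMod 2, (a ≠ 0 ∨ b ≠ 0 ∨ c ≠ 0) → ∃ y, a * M i y + b * M j y + c * M k y ≠ 0) :
    3 ≤ M.rank := by
  have : Fact (Nat.Prime 2) := ⟨Nat.prime_two⟩
  let rows : Fin 3 → (n → ZMod 2) := ![M i, M j, M k]
  have hli : LinearIndependent (ZMod 2) rows := by
    rw [Fintype.linearIndependent_iff]
    intro g hg
    by_contra hcon
    have h0 : g 0 ≠ 0 ∨ g 1 ≠ 0 ∨ g 2 ≠ 0 := by
      by_contra h'
      push Not at h'
      apply hcon
      intro t
      fin_cases t
      · exact h'.1
      · exact h'.2.1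
      · exact h'.2.2
    obtain ⟨y, hy⟩ := h (g 0) (g 1) (g 2) h0
    apply hy
    have := congrFun hg y
    rw [Fin.sum_univ_three] at this
    exact this
  rw [Matrix.rank_eq_finrank_span_row]
  have h1 : Submodule.span (ZMod 2) (Set.range rows) ≤
      Submodule.span (ZMod 2) (Set.range M.row) := by
    apply Submodule.span_mono
    rintro _ ⟨t, rfl⟩
    fin_cases t
    · exact ⟨i, rfl⟩
    · exact ⟨j, rfl⟩
    · exact ⟨k, rfl⟩
  have h2 := finrank_span_eq_card hli
  rw [Fintype.card_fin] at h2
  rw [← h2]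
  exact Submodule.finrank_mono h1

/-- `0` or `1`. -/
def ev (b : Bool) : ZMod 2 := if b = true then 1 else 0

/-- The seven nonzero combinations. -/
theorem comb (a b c : ZMod 2) (h : a ≠ 0 ∨ b ≠ 0 ∨ c ≠ 0) :
    (a = 1 ∧ b = 0 ∧ c = 0) ∨ (a = 0 ∧ b = 1 ∧ c = 0) ∨ (a = 0 ∧ b = 0 ∧ c = 1) ∨
    (a = 1 ∧ b = 1 ∧ c = 0) ∨ (a = 1 ∧ b = 0 ∧ c = 1) ∨ (a = 0 ∧ b = 1 ∧ c = 1) ∨
    (a = 1 ∧ b = 1 ∧ c = 1) := by
  have z : ∀ t : ZMod 2, t = 0 ∨ t = 1 := by decide
  rcases z a with rfl | rfl <;> rcases z b with rfl | rfl <;> rcases z c with rfl | rfl <;>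
    simp at h ⊢

theorem ev2 : ∀ x y : Bool, x ≠ y → ev x + ev y ≠ 0 := by decide

theorem ev3 : ∀ x y z : Bool, (x ^^ y) ≠ z → ev x + ev y + ev z ≠ 0 := by decide

theorem cutrank_ge (X : Set (Fin 11)) (h4 : 4 ≤ X.ncard) (h7 : X.ncard ≤ 7) :
    3 ≤ cutrank G X := by
  classical
  obtain ⟨b, hb, hbX⟩ := exists_mask X
  have hc : cnt b = X.ncard := by
    rw [Set.ncard_eq_toFinset_card', Set.toFinset_card, Fintype.card_subtype]
    rw [Finset.card_filter]
    simp only [Fin.sum_univ_succ, Fin.sum_univ_zero]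
    unfold cnt
    have e : ∀ i : Fin 11, (b.testBit i).toNat = if i ∈ X then 1 else 0 := by
      intro i; rw [hbX]; by_cases h : i ∈ X <;> simp [h]
    have e0 := e 0
    have e1 := e 1
    have e2 := e 2
    have e3 := e 3
    have e4 := e 4
    have e5 := e 5
    have e6 := e 6
    have e7 := e 7
    have e8 := e 8
    have e9 := e 9
    have e10 := e 10
    simp only [Fin.isValue, Fin.val_zero, Fin.val_one] at e0 e1
    change (b.testBit 2).toNat = _ at e2
    change (b.testBit 3).toNat = _ at e3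
    change (b.testBit 4).toNat = _ at e4
    change (b.testBit 5).toNat = _ at e5
    change (b.testBit 6).toNat = _ at e6
    change (b.testBit 7).toNat = _ at e7
    change (b.testBit 8).toNat = _ at e8
    change (b.testBit 9).toNat = _ at e9
    change (b.testBit 10).toNat = _ at e10
    rw [e0, e1, e2, e3, e4, e5, e6, e7, e8, e9, e10]
    simp only [Fin.succ_zero_eq_one, Fin.isValue]
    have f2 : (Fin.succ 1 : Fin 11) = 2 := rfl
    simp only [add_zero]
    change _ = (if (0 : Fin 11) ∈ X then 1 else 0) + ((if (1 : Fin 11) ∈ X then 1 else 0) +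
      ((if (2 : Fin 11) ∈ X then 1 else 0) + ((if (3 : Fin 11) ∈ X then 1 else 0) +
      ((if (4 : Fin 11) ∈ X then 1 else 0) + ((if (5 : Fin 11) ∈ X then 1 else 0) +
      ((if (6 : Fin 11) ∈ X then 1 else 0) + ((if (7 : Fin 11) ∈ X then 1 else 0) +
      ((if (8 : Fin 11) ∈ X then 1 else 0) + ((if (9 : Fin 11) ∈ X then 1 else 0) +
      (if (10 : Fin 11) ∈ X then 1 else 0))))))))))
    ring
  have h1 := List.all_eq_true.1 chk_all b (List.mem_range.2 hb)
  unfold chk at h1
  rw [hc] at h1
  simp only [Bool.or_eq_true, decide_eq_true_eq, List.any_eq_true, List.mem_range,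
    Bool.and_eq_true] at h1
  rcases h1 with (h1 | h1) | ⟨i, hi, hib, j, hj, hjb, k, hk, hkb, hind⟩
  · omega
  · omega
  · have hj' : j < 11 := by omega
    have hk' : k < 11 := by omega
    have hiX : (⟨i, hi⟩ : Fin 11) ∈ X := by
      have := hbX ⟨i, hi⟩
      rw [show b.testBit (⟨i, hi⟩ : Fin 11) = true from hib] at this
      simpa using this.symm
    have hjX : (⟨j, hj'⟩ : Fin 11) ∈ X := by
      have := hbX ⟨j, hj'⟩
      rw [show b.testBit (⟨j, hj'⟩ : Fin 11) = true from hjb] at this
      simpa using this.symm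
    have hkX : (⟨k, hk'⟩ : Fin 11) ∈ X := by
      have := hbX ⟨k, hk'⟩
      rw [show b.testBit (⟨k, hk'⟩ : Fin 11) = true from hkb] at this
      simpa using this.symm
    set u := (am.getD i 0) &&& (2047 ^^^ b) with hu
    set v := (am.getD j 0) &&& (2047 ^^^ b) with hv
    set w := (am.getD k 0) &&& (2047 ^^^ b) with hw
    unfold indep at hind
    simp only [Bool.and_eq_true, bne_iff_ne, ne_eq] at hind
    obtain ⟨⟨⟨⟨⟨⟨n1, n2⟩, n3⟩, n4⟩, n5⟩, n6⟩, n7⟩ := hind
    have bitlt : ∀ (r c : ℕ), (am.getD r 0 &&& (2047 ^^^ b)).testBit c = true → c < 11 := by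
      intro r c hrc
      by_contra hcon
      rw [Nat.testBit_and, Nat.testBit_xor] at hrc
      have l1 : (2047 : ℕ).testBit c = false :=
        Nat.testBit_lt_two_pow (lt_of_lt_of_le (by norm_num : 2047 < 2 ^ 11)
          (Nat.pow_le_pow_right (by norm_num) (by omega)))
      have l2 : b.testBit c = false :=
        Nat.testBit_lt_two_pow (lt_of_lt_of_le (show b < 2 ^ 11 from hb)
          (Nat.pow_le_pow_right (by norm_num) (by omega)))
      rw [l1, l2] at hrc
      simp at hrc
    have t2047 : ∀ c : Fin 11, (2047 : ℕ).testBit c = true := by decide +kernel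
    have ent : ∀ (r : ℕ) (hr : r < 11) (c : Fin 11) (_ : c ∉ X),
        (if G.Adj ⟨r, hr⟩ c then (1 : ZMod 2) else 0) =
          ev ((am.getD r 0 &&& (2047 ^^^ b)).testBit c) := by
      intro r hr c hcX
      have : (am.getD r 0 &&& (2047 ^^^ b)).testBit c = adjB r c := by
        rw [Nat.testBit_and, Nat.testBit_xor, t2047 c, hbX c]
        simp [hcX, adjB]
      rw [this]
      rfl
    -- a column for every nonzero combination
    have col : ∀ x y : ℕ, (∃ c, x.testBit c ≠ y.testBit c) →
        (∀ c, x.testBit c = true → c < 11 ∧ b.testBit c = false) →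
        (∀ c, y.testBit c = true → c < 11 ∧ b.testBit c = false) →
        ∃ c : Fin 11, c ∉ X ∧ x.testBit c ≠ y.testBit c := by
      rintro x y ⟨c, hc'⟩ hx hy
      have hcc : c < 11 ∧ b.testBit c = false := by
        by_cases h : x.testBit c = true
        · exact hx c h
        · by_cases h' : y.testBit c = true
          · exact hy c h'
          · simp only [Bool.not_eq_true] at h h'
            rw [h, h'] at hc'
            exact absurd rfl hc'
      refine ⟨⟨c, hcc.1⟩, ?_, hc'⟩
      intro hcX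
      have h' := hbX ⟨c, hcc.1⟩
      have h'' : b.testBit c = true := by
        rw [show b.testBit c = decide ((⟨c, hcc.1⟩ : Fin 11) ∈ X) from h']
        exact decide_eq_true hcX
      rw [hcc.2] at h''
      exact absurd h'' (by simp)
    have good : ∀ r c : ℕ, (am.getD r 0 &&& (2047 ^^^ b)).testBit c = true →
        c < 11 ∧ b.testBit c = false := by
      intro r c hrc
      have hlt := bitlt r c hrc
      refine ⟨hlt, ?_⟩
      have h20 : (2047 : ℕ).testBit c = true := t2047 ⟨c, hlt⟩
      rw [Nat.testBit_and, Nat.testBit_xor, h20] at hrc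
      simp at hrc
      exact hrc.2
    have goodu : ∀ c, u.testBit c = true → c < 11 ∧ b.testBit c = false := good i
    have goodv : ∀ c, v.testBit c = true → c < 11 ∧ b.testBit c = false := good j
    have goodw : ∀ c, w.testBit c = true → c < 11 ∧ b.testBit c = false := good k
    have good0 : ∀ c, (0 : ℕ).testBit c = true → c < 11 ∧ b.testBit c = false := by
      intro c h; simp at h
    have gooduv : ∀ c, (u ^^^ v).testBit c = true → c < 11 ∧ b.testBit c = false := by
      intro c h
      rw [Nat.testBit_xor] at h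
      by_cases h' : u.testBit c = true
      · exact goodu c h'
      · simp only [Bool.not_eq_true] at h'
        rw [h'] at h
        exact goodv c (by simpa using h)
    unfold cutrank
    refine rank_ge_three _ (⟨⟨i, hi⟩, hiX⟩ : {v // v ∈ X}) ⟨⟨j, hj'⟩, hjX⟩ ⟨⟨k, hk'⟩, hkX⟩ ?_
    intro α β γ hne
    suffices h : ∃ c : Fin 11, c ∉ X ∧
        α * ev (u.testBit c) + β * ev (v.testBit c) + γ * ev (w.testBit c) ≠ 0 by
      obtain ⟨c, hcX, hc'⟩ := h
      refine ⟨⟨c, hcX⟩, ?_⟩
      simp only [Matrix.of_apply]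
      have e1 := ent i hi c hcX
      have e2 := ent j hj' c hcX
      have e3 := ent k hk' c hcX
      rw [← hu] at e1
      rw [← hv] at e2
      rw [← hw] at e3
      intro h0
      apply hc'
      rw [← e1, ← e2, ← e3]
      convert h0
    rcases comb α β γ hne with ⟨rfl, rfl, rfl⟩ | ⟨rfl, rfl, rfl⟩ | ⟨rfl, rfl, rfl⟩ | ⟨rfl, rfl, rfl⟩ |
      ⟨rfl, rfl, rfl⟩ | ⟨rfl, rfl, rfl⟩ | ⟨rfl, rfl, rfl⟩
    · obtain ⟨c, h1, h2⟩ := col u 0 (ex_bit n1) goodu good0
      refine ⟨c, h1, ?_⟩
      have := ev2 _ _ h2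
      simpa [ev] using this
    · obtain ⟨c, h1, h2⟩ := col v 0 (ex_bit n2) goodv good0
      refine ⟨c, h1, ?_⟩
      have := ev2 _ _ h2
      simpa [ev] using this
    · obtain ⟨c, h1, h2⟩ := col w 0 (ex_bit n3) goodw good0
      refine ⟨c, h1, ?_⟩
      have := ev2 _ _ h2
      simpa [ev] using this
    · obtain ⟨c, h1, h2⟩ := col u v (ex_bit n4) goodu goodv
      refine ⟨c, h1, ?_⟩
      rw [one_mul, one_mul, zero_mul, add_zero]
      exact ev2 _ _ h2
    · obtain ⟨c, h1, h2⟩ := col u w (ex_bit n5) goodu goodw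
      refine ⟨c, h1, ?_⟩
      rw [one_mul, one_mul, zero_mul, add_zero]
      exact ev2 _ _ h2
    · obtain ⟨c, h1, h2⟩ := col v w (ex_bit n6) goodv goodw
      refine ⟨c, h1, ?_⟩
      rw [one_mul, one_mul, zero_mul, zero_add]
      exact ev2 _ _ h2
    · obtain ⟨c, h1, h2⟩ := col (u ^^^ v) w (ex_bit n7) gooduv goodw
      refine ⟨c, h1, ?_⟩
      rw [one_mul, one_mul, one_mul]
      rw [Nat.testBit_xor] at h2
      exact ev3 _ _ _ h2

theorem rw_ge : 3 ≤ rw G := by
  unfold rw
  refine le_iInf₂ fun k hk => ?_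
  rcases hk with hk | ⟨W, _, T, hT, h3, f, hf⟩
  · rw [Fintype.card_fin] at hk; omega
  · obtain ⟨a, b, hab, h1, h2⟩ := balanced T hT h3 f 4 (by norm_num) (by rw [Fintype.card_fin]; norm_num)
    have h5 := cutrank_ge _ h1 (by omega)
    exact_mod_cast h5.trans (hf a b hab)

/-- **Q1 is false.** The graph `G` (the `2 × 5` grid and one more vertex, which is joined to two
corners) has split-free cable term width at most `4` and rank-width at least `3`. So
`rw G ≤ ⌊sfw G / 2⌋`, that is `2 * rw G ≤ sfw G`, fails, and `sfw G ≤ 2 * rw G - 1`. -/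
theorem result : sfw G ≤ 4 ∧ 3 ≤ rw G ∧ ¬ (2 * rw G ≤ sfw G) := by
  refine ⟨sfw_le, rw_ge, fun h => ?_⟩
  have h1 : (2 * 3 : ℕ∞) ≤ 2 * rw G := mul_le_mul_right rw_ge 2
  have h2 := (h1.trans h).trans sfw_le
  norm_num at h2

end Pool.Agent.Results.MP_d70946_co.RankWidthThree
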